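import Pool.Agent.H44.MS.Basics

/-!
# MP_232a1c_nt: module AV (the average of the common divisors)
-/

set_option autoImplicit false

namespace Pool.Agent.H35.MS.AVM

open Finset Real Pool.Agent.H44.MS

/-! ## The number of prime factors -/

private noncomputable def U (n : ℕ) : ℝ := (n : ℝ) ^ (1 / 8 : ℝ)

private theorem U_one_le {n : ℕ} (h : 1 ≤ n) : 1 ≤ U n :=
  Real.one_le_rpow (by exact_mod_cast h) (by norm_num)

private theorem U_pos {n : ℕ} (h : 1 ≤ n) : 0 < U n := lt_of_lt_of_le one_pos (U_one_le h)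

private theorem U_mono {m n : ℕ} (h : m ≤ n) : U m ≤ U n :=
  Real.rpow_le_rpow (Nat.cast_nonneg m) (by exact_mod_cast h) (by norm_num)

private theorem U_pow8 (n : ℕ) : U n ^ 8 = n := by
  unfold U
  rw [← Real.rpow_natCast, ← Real.rpow_mul (Nat.cast_nonneg n)]
  norm_num

private theorem U_pow4 (n : ℕ) : U n ^ 4 = √(n : ℝ) := by
  unfold U
  rw [← Real.rpow_natCast, ← Real.rpow_mul (Nat.cast_nonneg n), Real.sqrt_eq_rpow]
  norm_num

private theorem U_pow2 (n : ℕ) : U n ^ 2 = (n : ℝ) ^ (1 / 4 : ℝ) := by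
  unfold U
  rw [← Real.rpow_natCast, ← Real.rpow_mul (Nat.cast_nonneg n)]
  norm_num

private theorem U_pow9 (n : ℕ) : U n ^ 9 = (n : ℝ) ^ (9 / 8 : ℝ) := by
  unfold U
  rw [← Real.rpow_natCast, ← Real.rpow_mul (Nat.cast_nonneg n)]
  norm_num

/-- powers of the number of prime factors are small -/
private theorem omega_le (K : ℝ) (hK : 1 ≤ K) :
    ∃ C : ℝ, 1 ≤ C ∧ ∀ n : ℕ, 1 ≤ n → K ^ n.primeFactors.card ≤ C * U n := by
  obtain ⟨M, hM⟩ := exists_nat_ge (K ^ 8)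
  refine ⟨K ^ (M + 1), one_le_pow₀ hK, ?_⟩
  intro n hn
  have h1 : ∀ p ∈ n.primeFactors, K ≤ (if p ≤ M then K else 1) * U p := by
    intro p hp
    have hp1 : 1 ≤ p := (Nat.prime_of_mem_primeFactors hp).one_lt.le
    split_ifs with h
    · exact le_mul_of_one_le_right (by linarith) (U_one_le hp1)
    · rw [one_mul]
      have h2 : K ^ 8 ≤ U p ^ 8 := by
        rw [U_pow8]
        refine hM.trans ?_
        exact_mod_cast (not_le.1 h).le
      exact le_of_pow_le_pow_left₀ (by norm_num) (U_pos hp1).le h2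
  have h2 : K ^ n.primeFactors.card ≤ ∏ p ∈ n.primeFactors, ((if p ≤ M then K else 1) * U p) := by
    rw [← Finset.prod_const]
    exact Finset.prod_le_prod (fun p _ => by linarith) h1
  refine h2.trans ?_
  rw [Finset.prod_mul_distrib]
  refine mul_le_mul ?_ ?_ ?_ ?_
  · rw [Finset.prod_ite, Finset.prod_const, Finset.prod_const_one, mul_one]
    refine pow_le_pow_right₀ hK ?_
    have : n.primeFactors.filter (fun p => p ≤ M) ⊆ range (M + 1) := by
      intro p hp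
      rw [Finset.mem_filter] at hp
      rw [Finset.mem_range]
      omega
    simpa using Finset.card_le_card this
  · have h3 : ∏ p ∈ n.primeFactors, U p = U (∏ p ∈ n.primeFactors, p) := by
      unfold U
      rw [Real.finsetProd_rpow _ _ (fun p _ => Nat.cast_nonneg p)]
      push_cast
      rfl
    rw [h3]
    exact U_mono (Nat.le_of_dvd hn (Nat.prod_primeFactors_dvd n))
  · exact Finset.prod_nonneg fun p hp =>
      (U_pos (Nat.prime_of_mem_primeFactors hp).one_lt.le).le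
  · positivity

private theorem zeta_le : ∃ Z : ℝ, 1 ≤ Z ∧ ∀ X : ℕ, ∑ n ∈ Icc 1 X, 1 / U n ^ 9 ≤ Z := by
  have hs : Summable (fun n : ℕ => 1 / U n ^ 9) := by
    have h := Real.summable_one_div_nat_rpow.2 (show (1 : ℝ) < 9 / 8 by norm_num)
    refine h.congr (fun n => ?_)
    rw [U_pow9]
  refine ⟨max 1 (∑' n : ℕ, 1 / U n ^ 9), le_max_left _ _, fun X => le_trans ?_ (le_max_right _ _)⟩
  refine hs.sum_le_tsum _ (fun n _ => ?_)
  unfold U
  positivity


/-! ## The sum over the multiples -/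

private theorem card_mul_le (a b : ℕ) :
    (a * b).primeFactors.card ≤ a.primeFactors.card + b.primeFactors.card := by
  rcases Nat.eq_zero_or_pos a with ha | ha
  · subst ha; simp
  rcases Nat.eq_zero_or_pos b with hb | hb
  · subst hb; simp
  rw [Nat.primeFactors_mul ha.ne' hb.ne']
  exact Finset.card_union_le _ _

private theorem D_le (K : ℝ) (hK : 1 ≤ K) :
    ∃ D : ℝ, 1 ≤ D ∧ ∀ X : ℕ, ∑ m ∈ Icc 1 X, K ^ m.primeFactors.card / (m : ℝ) ^ 2 ≤ D := by
  obtain ⟨C, hC, h1⟩ := omega_le K hK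
  obtain ⟨Z, hZ, h2⟩ := zeta_le
  refine ⟨C * Z, one_le_mul_of_one_le_of_one_le hC hZ, fun X => ?_⟩
  refine le_trans ?_ (mul_le_mul_of_nonneg_left (h2 X) (by linarith))
  rw [Finset.mul_sum]
  refine Finset.sum_le_sum fun m hm => ?_
  have hm1 : 1 ≤ m := (Finset.mem_Icc.1 hm).1
  have hu := U_one_le hm1
  have h3 := h1 m hm1
  have hu0 := U_pos hm1
  rw [← U_pow8 m, div_le_iff₀ (by positivity)]
  refine h3.trans ?_
  have h4 : C * (1 / U m ^ 9) * (U m ^ 8) ^ 2 = C * U m ^ 7 := by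
    field_simp
  rw [h4]
  refine mul_le_mul_of_nonneg_left ?_ (by linarith)
  exact le_self_pow₀ hu (by norm_num)

private theorem mult_le {K D : ℝ} (hK : 1 ≤ K)
    (hD : ∀ X : ℕ, ∑ m ∈ Icc 1 X, K ^ m.primeFactors.card / (m : ℝ) ^ 2 ≤ D) (X i : ℕ)
    (hi : 1 ≤ i) :
    ∑ j ∈ Icc 2 X, ic (i ∣ j) * (K ^ j.primeFactors.card / (j : ℝ) ^ 2) ≤
      K ^ i.primeFactors.card / (i : ℝ) ^ 2 * D := by
  classical
  have hi0 : (0 : ℝ) < i := by exact_mod_cast hi
  rw [sum_ic_mul]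
  have h1 : (Icc 2 X).filter (fun j => i ∣ j) ⊆ (Icc 1 X).image (fun m => i * m) := by
    intro j hj
    rw [Finset.mem_filter, Finset.mem_Icc] at hj
    obtain ⟨⟨hj1, hj2⟩, m, rfl⟩ := hj
    rw [Finset.mem_image]
    refine ⟨m, Finset.mem_Icc.2 ⟨?_, ?_⟩, rfl⟩
    · rcases Nat.eq_zero_or_pos m with h | h
      · subst h; omega
      · exact h
    · exact (Nat.le_mul_of_pos_left m hi).trans hj2
  have hK0 : 0 < K := by linarith
  refine (Finset.sum_le_sum_of_subset_of_nonneg h1 fun j _ _ => by positivity).trans ?_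
  rw [Finset.sum_image (fun a _ b _ h => Nat.eq_of_mul_eq_mul_left hi h)]
  refine le_trans ?_ (mul_le_mul_of_nonneg_left (hD X) (by positivity))
  rw [Finset.mul_sum]
  refine Finset.sum_le_sum fun m hm => ?_
  have hm1 : 1 ≤ m := (Finset.mem_Icc.1 hm).1
  have hm0 : (0 : ℝ) < m := by exact_mod_cast hm1
  rw [div_mul_div_comm, ← pow_add]
  push_cast
  rw [mul_pow]
  refine div_le_div_of_nonneg_right ?_ (by positivity)
  exact pow_le_pow_right₀ hK (card_mul_le i m)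

/-! ## Counting pairs -/

private theorem hh_eq (Q b t₁ t₂ : ℕ) :
    hh (b + Q * t₁) (b + Q * t₂) =
      Q * (((t₁ : ℤ) - t₂).natAbs * (2 * b + Q * (t₁ + t₂))) := by
  unfold hh
  have h1 : (((b + Q * t₁ : ℕ) : ℤ)) ^ 2 - ((b + Q * t₂ : ℕ) : ℤ) ^ 2 =
      (Q : ℤ) * (((t₁ : ℤ) - t₂) * ((2 * b + Q * (t₁ + t₂) : ℕ) : ℤ)) := by
    push_cast
    ring
  rw [h1, Int.natAbs_mul, Int.natAbs_mul, Int.natAbs_natCast, Int.natAbs_natCast]

private theorem nat_dvd_split {i u v : ℕ} (hi : 1 ≤ i) (h : i ∣ u * v) :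
    ∃ a c : ℕ, a * c = i ∧ a ∣ u ∧ c ∣ v := by
  have hg : 0 < Nat.gcd i u := Nat.gcd_pos_of_pos_left u hi
  refine ⟨Nat.gcd i u, i / Nat.gcd i u, Nat.mul_div_cancel' (Nat.gcd_dvd_left i u),
    Nat.gcd_dvd_right i u, ?_⟩
  have h1 : Nat.Coprime (i / Nat.gcd i u) (u / Nat.gcd i u) := Nat.coprime_div_gcd_div_gcd hg
  refine h1.dvd_of_dvd_mul_left ?_
  obtain ⟨k, hk⟩ := h
  have h2 : Nat.gcd i u * (i / Nat.gcd i u) = i := Nat.mul_div_cancel' (Nat.gcd_dvd_left i u)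
  have h3 : Nat.gcd i u * (u / Nat.gcd i u) = u := Nat.mul_div_cancel' (Nat.gcd_dvd_right i u)
  refine ⟨k, Nat.eq_of_mul_eq_mul_left hg ?_⟩
  calc Nat.gcd i u * (u / Nat.gcd i u * v) = (Nat.gcd i u * (u / Nat.gcd i u)) * v := by ring
    _ = u * v := by rw [h3]
    _ = i * k := hk
    _ = (Nat.gcd i u * (i / Nat.gcd i u)) * k := by rw [h2]
    _ = Nat.gcd i u * (i / Nat.gcd i u * k) := by ring

/-- the pairs for one factorisation -/
private noncomputable def PP (Q b T a c : ℕ) : Finset (ℕ × ℕ) := by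
  classical
  exact (Icc 1 T ×ˢ Icc 1 T).filter (fun t => t.1 ≠ t.2 ∧ a ∣ ((t.1 : ℤ) - t.2).natAbs ∧
    c ∣ 2 * b + Q * (t.1 + t.2))

private theorem mem_PP {Q b T a c : ℕ} {t : ℕ × ℕ} : t ∈ PP Q b T a c ↔
    (1 ≤ t.1 ∧ t.1 ≤ T) ∧ (1 ≤ t.2 ∧ t.2 ≤ T) ∧ t.1 ≠ t.2 ∧ a ∣ ((t.1 : ℤ) - t.2).natAbs ∧
      c ∣ 2 * b + Q * (t.1 + t.2) := by
  classical
  unfold PP
  rw [Finset.mem_filter, Finset.mem_product, Finset.mem_Icc, Finset.mem_Icc, and_assoc]

private theorem dvd_of_pair {a t x y : ℕ} (hx : a ∣ ((t : ℤ) - x).natAbs)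
    (hy : a ∣ ((t : ℤ) - y).natAbs) : (a : ℤ) ∣ (x : ℤ) - y := by
  have h1 : (a : ℤ) ∣ (t : ℤ) - x := Int.natCast_dvd.2 hx
  have h2 : (a : ℤ) ∣ (t : ℤ) - y := Int.natCast_dvd.2 hy
  have h3 := dvd_sub h2 h1
  have h4 : (t : ℤ) - y - (t - x) = x - y := by ring
  rwa [h4] at h3

private theorem eq_of_dvd_div {i x y : ℕ} (h : (i : ℤ) ∣ (x : ℤ) - y) (hd : x / i = y / i) :
    x = y := by
  have h1 : x % i = y % i := by
    have h2 : (y : ℤ) ≡ x [ZMOD i] := Int.modEq_iff_dvd.2 h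
    exact ((Int.natCast_modEq_iff.1 h2)).symm
  calc x = i * (x / i) + x % i := (Nat.div_add_mod x i).symm
    _ = i * (y / i) + y % i := by rw [hd, h1]
    _ = y := Nat.div_add_mod y i

/-- the small case -/
private theorem PP_card_A {Q b T a c : ℕ} (hac : Nat.Coprime a c) (hc : Nat.Coprime c Q) :
    (PP Q b T a c).card ≤ T * (T / (a * c) + 1) := by
  have h : (PP Q b T a c).card ≤ (Icc 1 T ×ˢ range (T / (a * c) + 1)).card := by
    refine Finset.card_le_card_of_injOn (fun t => (t.1, t.2 / (a * c))) ?_ ?_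
    · intro t ht
      rw [Finset.mem_coe, mem_PP] at ht
      rw [Finset.mem_coe, Finset.mem_product, Finset.mem_Icc, Finset.mem_range]
      exact ⟨ht.1, Nat.lt_succ_of_le (Nat.div_le_div_right ht.2.1.2)⟩
    · rintro ⟨t, x⟩ hx ⟨t', y⟩ hy hxy
      rw [Finset.mem_coe, mem_PP] at hx hy
      simp only [Prod.mk.injEq] at hxy
      obtain ⟨rfl, hxy⟩ := hxy
      have h1 : (a : ℤ) ∣ (x : ℤ) - y := dvd_of_pair hx.2.2.2.1 hy.2.2.2.1
      have h2 : (c : ℤ) ∣ (x : ℤ) - y := by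
        have h3 : (c : ℤ) ∣ ((2 * b + Q * (t + x) : ℕ) : ℤ) := Int.natCast_dvd_natCast.2 hx.2.2.2.2
        have h4 : (c : ℤ) ∣ ((2 * b + Q * (t + y) : ℕ) : ℤ) := Int.natCast_dvd_natCast.2 hy.2.2.2.2
        have h5 := dvd_sub h3 h4
        have h6 : ((2 * b + Q * (t + x) : ℕ) : ℤ) - ((2 * b + Q * (t + y) : ℕ) : ℤ) =
            (Q : ℤ) * ((x : ℤ) - y) := by
          push_cast
          ring
        rw [h6] at h5
        exact (Int.isCoprime_iff_gcd_eq_one.2 (by simpa using hc)).dvd_of_dvd_mul_left h5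
      have h3 : ((a * c : ℕ) : ℤ) ∣ (x : ℤ) - y := by
        push_cast
        exact (Int.isCoprime_iff_gcd_eq_one.2 (by simpa using hac)).mul_dvd h1 h2
      rw [eq_of_dvd_div h3 hxy]
  rwa [Finset.card_product, Nat.card_Icc, Finset.card_range, Nat.add_sub_cancel] at h

/-- a large factor of the difference -/
private theorem PP_card_B1 {Q b T a c : ℕ} :
    ((PP Q b T a c).card : ℝ) * a ≤ 2 * (T : ℝ) ^ 2 := by
  by_cases hT : a ≤ T
  · have h : (PP Q b T a c).card ≤ (Icc 1 T ×ˢ range (T / a + 1)).card := by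
      refine Finset.card_le_card_of_injOn (fun t => (t.1, t.2 / a)) ?_ ?_
      · intro t ht
        rw [Finset.mem_coe, mem_PP] at ht
        rw [Finset.mem_coe, Finset.mem_product, Finset.mem_Icc, Finset.mem_range]
        exact ⟨ht.1, Nat.lt_succ_of_le (Nat.div_le_div_right ht.2.1.2)⟩
      · rintro ⟨t, x⟩ hx ⟨t', y⟩ hy hxy
        rw [Finset.mem_coe, mem_PP] at hx hy
        simp only [Prod.mk.injEq] at hxy
        obtain ⟨rfl, hxy⟩ := hxy
        have h9 : x = y := eq_of_dvd_div (dvd_of_pair hx.2.2.2.1 hy.2.2.2.1) hxy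
        rw [h9]
    rw [Finset.card_product, Nat.card_Icc, Finset.card_range, Nat.add_sub_cancel] at h
    have h1 : (PP Q b T a c).card * a ≤ 2 * T ^ 2 := by
      calc (PP Q b T a c).card * a ≤ T * (T / a + 1) * a := Nat.mul_le_mul_right a h
        _ = T * (T / a * a + a) := by ring
        _ ≤ T * (T + T) := Nat.mul_le_mul_left T (add_le_add (Nat.div_mul_le_self T a) hT)
        _ = 2 * T ^ 2 := by ring
    exact_mod_cast h1
  · have h : PP Q b T a c = ∅ := by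
      rw [Finset.eq_empty_iff_forall_notMem]
      intro t ht
      rw [mem_PP] at ht
      obtain ⟨⟨h1, h2⟩, ⟨h3, h4⟩, h5, h6, -⟩ := ht
      have h7 : 0 < ((t.1 : ℤ) - t.2).natAbs := by
        rw [Int.natAbs_pos]
        intro h0
        exact h5 (by omega)
      have h8 := Nat.le_of_dvd h7 h6
      omega
    rw [h, Finset.card_empty]
    simp only [Nat.cast_zero, zero_mul]
    positivity

/-- a large factor of the sum -/
private theorem PP_card_B2 {Q b T a c : ℕ} (hc : 1 ≤ c) (hQ : 1 ≤ Q) (hb : b ≤ Q) (hT : 1 ≤ T) :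
    ((PP Q b T a c).card : ℝ) * c ≤ 4 * Q * (T : ℝ) ^ 2 := by
  have h : (PP Q b T a c).card ≤ (Icc 1 T ×ˢ Icc 1 (4 * Q * T / c)).card := by
    refine Finset.card_le_card_of_injOn (fun t => (t.1, (2 * b + Q * (t.1 + t.2)) / c)) ?_ ?_
    · intro t ht
      rw [Finset.mem_coe, mem_PP] at ht
      obtain ⟨h1, h2, h3, h4, h5⟩ := ht
      rw [Finset.mem_coe, Finset.mem_product, Finset.mem_Icc, Finset.mem_Icc]
      refine ⟨h1, ?_, Nat.div_le_div_right ?_⟩
      · refine Nat.div_pos (Nat.le_of_dvd ?_ h5) hc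
        have : 0 < Q * (t.1 + t.2) := Nat.mul_pos hQ (by omega)
        omega
      · calc 2 * b + Q * (t.1 + t.2) ≤ 2 * Q + Q * (T + T) :=
              add_le_add (Nat.mul_le_mul_left 2 hb)
                (Nat.mul_le_mul_left Q (add_le_add h1.2 h2.2))
          _ = 2 * Q * 1 + 2 * Q * T := by ring
          _ ≤ 2 * Q * T + 2 * Q * T := Nat.add_le_add_right (Nat.mul_le_mul_left _ hT) _
          _ = 4 * Q * T := by ring
    · rintro ⟨t, x⟩ hx ⟨t', y⟩ hy hxy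
      rw [Finset.mem_coe, mem_PP] at hx hy
      simp only [Prod.mk.injEq] at hxy
      obtain ⟨rfl, hxy⟩ := hxy
      have h1 : 2 * b + Q * (t + x) = 2 * b + Q * (t + y) := by
        calc 2 * b + Q * (t + x) = (2 * b + Q * (t + x)) / c * c :=
              (Nat.div_mul_cancel hx.2.2.2.2).symm
          _ = (2 * b + Q * (t + y)) / c * c := by rw [hxy]
          _ = 2 * b + Q * (t + y) := Nat.div_mul_cancel hy.2.2.2.2
      have h2 : Q * (t + x) = Q * (t + y) := Nat.add_left_cancel h1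
      have h3 : t + x = t + y := Nat.eq_of_mul_eq_mul_left hQ h2
      rw [Nat.add_left_cancel h3]
  rw [Finset.card_product, Nat.card_Icc, Nat.card_Icc, Nat.add_sub_cancel,
    Nat.add_sub_cancel] at h
  have h1 : (PP Q b T a c).card * c ≤ 4 * Q * T ^ 2 := by
    calc (PP Q b T a c).card * c ≤ T * (4 * Q * T / c) * c := Nat.mul_le_mul_right c h
      _ = T * (4 * Q * T / c * c) := by ring
      _ ≤ T * (4 * Q * T) := Nat.mul_le_mul_left T (Nat.div_mul_le_self _ c)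
      _ = 4 * Q * T ^ 2 := by ring
  exact_mod_cast h1

/-- the number of pairs `t₁ ≠ t₂` for which `i` divides the difference of the squares -/
private noncomputable def NN (Q b T i : ℕ) : ℝ :=
  ∑ t₁ ∈ Icc 1 T, ∑ t₂ ∈ Icc 1 T, ic (t₁ ≠ t₂) * ic (i ∣ hh (b + Q * t₁) (b + Q * t₂))

private theorem NN_nonneg (Q b T i : ℕ) : 0 ≤ NN Q b T i :=
  Finset.sum_nonneg fun _ _ => Finset.sum_nonneg fun _ _ => mul_nonneg (ic_nonneg _) (ic_nonneg _)

private theorem NN_le_sq (Q b T i : ℕ) : NN Q b T i ≤ (T : ℝ) ^ 2 := by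
  have h : NN Q b T i ≤ ∑ t₁ ∈ Icc 1 T, ∑ t₂ ∈ Icc 1 T, (1 : ℝ) :=
    Finset.sum_le_sum fun _ _ => Finset.sum_le_sum fun _ _ =>
      mul_le_one₀ (ic_le_one _) (ic_nonneg _) (ic_le_one _)
  refine h.trans (le_of_eq ?_)
  simp only [Finset.sum_const, Nat.card_Icc, Nat.add_sub_cancel, nsmul_eq_mul, mul_one]
  ring

private theorem NN_le {Q b T i : ℕ} (hi : 1 ≤ i) (hQ : Nat.Coprime i Q) :
    NN Q b T i ≤ ∑ a ∈ i.divisors, ((PP Q b T a (i / a)).card : ℝ) := by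
  classical
  have h1 : NN Q b T i = (((Icc 1 T ×ˢ Icc 1 T).filter (fun t : ℕ × ℕ => t.1 ≠ t.2 ∧
      i ∣ hh (b + Q * t.1) (b + Q * t.2))).card : ℝ) := by
    rw [← sum_ic, Finset.sum_product]
    unfold NN
    refine Finset.sum_congr rfl fun t₁ _ => Finset.sum_congr rfl fun t₂ _ => ?_
    rw [ic_and]
  rw [h1]
  have h2 : (Icc 1 T ×ˢ Icc 1 T).filter (fun t : ℕ × ℕ => t.1 ≠ t.2 ∧
      i ∣ hh (b + Q * t.1) (b + Q * t.2)) ⊆ i.divisors.biUnion (fun a => PP Q b T a (i / a)) := by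
    intro t ht
    rw [Finset.mem_filter, Finset.mem_product, Finset.mem_Icc, Finset.mem_Icc] at ht
    obtain ⟨⟨h3, h4⟩, h5, h6⟩ := ht
    rw [hh_eq] at h6
    obtain ⟨a, c, hac, ha, hc⟩ := nat_dvd_split hi (hQ.dvd_of_dvd_mul_left h6)
    rw [Finset.mem_biUnion]
    have ha0 : 0 < a := by
      rcases Nat.eq_zero_or_pos a with h | h
      · subst h; omega
      · exact h
    refine ⟨a, Nat.mem_divisors.2 ⟨⟨c, hac.symm⟩, by omega⟩, ?_⟩
    have hc' : i / a = c := by rw [← hac, Nat.mul_div_cancel_left c ha0]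
    rw [hc', mem_PP]
    exact ⟨h3, h4, h5, ha, hc⟩
  refine le_trans (Nat.cast_le.2 ((Finset.card_le_card h2).trans Finset.card_biUnion_le)) ?_
  push_cast
  exact le_rfl

private theorem card_div_le {i : ℕ} (hi : Squarefree i) :
    (i.divisors.card : ℝ) ≤ 2 ^ i.primeFactors.card := by
  have h : i.divisors.card ≤ 2 ^ i.primeFactors.card := by
    rw [Nat.card_divisors hi.ne_zero]
    refine Finset.prod_le_pow_card _ _ _ fun p _ => ?_
    have := (Nat.squarefree_iff_factorization_le_one hi.ne_zero).1 hi p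
    omega
  exact_mod_cast h

/-- the small case -/
private theorem NN_A {Q b T i : ℕ} (hi : Squarefree i) (hQ : Nat.Coprime i Q) (hT : i ≤ T) :
    NN Q b T i * i ≤ 2 ^ i.primeFactors.card * (2 * (T : ℝ) ^ 2) := by
  have hi1 : 1 ≤ i := Nat.pos_of_ne_zero hi.ne_zero
  refine le_trans (mul_le_mul_of_nonneg_right (NN_le hi1 hQ) (Nat.cast_nonneg i)) ?_
  rw [Finset.sum_mul]
  have h1 : ∀ a ∈ i.divisors, ((PP Q b T a (i / a)).card : ℝ) * i ≤ 2 * (T : ℝ) ^ 2 := by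
    intro a ha
    have had := Nat.dvd_of_mem_divisors ha
    have hac : a * (i / a) = i := Nat.mul_div_cancel' had
    have hcop : Nat.Coprime a (i / a) := Nat.coprime_of_squarefree_mul (by rwa [hac])
    have hcQ : Nat.Coprime (i / a) Q := Nat.Coprime.coprime_dvd_left ⟨a, by rw [mul_comm, hac]⟩ hQ
    have h2 := PP_card_A (b := b) (T := T) hcop hcQ
    rw [hac] at h2
    have h3 : (PP Q b T a (i / a)).card * i ≤ 2 * T ^ 2 := by
      calc (PP Q b T a (i / a)).card * i ≤ T * (T / i + 1) * i := Nat.mul_le_mul_right i h2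
        _ = T * (T / i * i + i) := by ring
        _ ≤ T * (T + T) := Nat.mul_le_mul_left T (add_le_add (Nat.div_mul_le_self T i) hT)
        _ = 2 * T ^ 2 := by ring
    exact_mod_cast h3
  refine (Finset.sum_le_sum h1).trans ?_
  rw [Finset.sum_const, nsmul_eq_mul]
  exact mul_le_mul_of_nonneg_right (card_div_le hi) (by positivity)

/-- the general case -/
private theorem NN_B {Q b T i : ℕ} (hi : Squarefree i) (hQ : Nat.Coprime i Q) (hQ1 : 1 ≤ Q)
    (hb : b ≤ Q) (hT : 1 ≤ T) :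
    NN Q b T i * √(i : ℝ) ≤ 2 ^ i.primeFactors.card * (4 * Q * (T : ℝ) ^ 2) := by
  have hi1 : 1 ≤ i := Nat.pos_of_ne_zero hi.ne_zero
  have hQr : (1 : ℝ) ≤ Q := by exact_mod_cast hQ1
  refine le_trans (mul_le_mul_of_nonneg_right (NN_le hi1 hQ) (Real.sqrt_nonneg _)) ?_
  rw [Finset.sum_mul]
  have h1 : ∀ a ∈ i.divisors, ((PP Q b T a (i / a)).card : ℝ) * √(i : ℝ) ≤
      4 * Q * (T : ℝ) ^ 2 := by
    intro a ha
    have had := Nat.dvd_of_mem_divisors ha
    have hac : a * (i / a) = i := Nat.mul_div_cancel' had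
    have ha1 : 1 ≤ a := Nat.pos_of_mem_divisors ha
    have hc1 : 1 ≤ i / a := by
      rcases Nat.eq_zero_or_pos (i / a) with h | h
      · rw [h, mul_zero] at hac; omega
      · exact h
    have hacr : (a : ℝ) * ((i / a : ℕ) : ℝ) = i := by exact_mod_cast hac
    by_cases hs : √(i : ℝ) ≤ a
    · refine (mul_le_mul_of_nonneg_left hs (Nat.cast_nonneg _)).trans ?_
      refine PP_card_B1.trans ?_
      nlinarith [sq_nonneg (T : ℝ)]
    · have hs2 : √(i : ℝ) ≤ ((i / a : ℕ) : ℝ) := by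
        by_contra hcon
        push Not at hs hcon
        have h3 : (a : ℝ) * ((i / a : ℕ) : ℝ) < √(i : ℝ) * √(i : ℝ) :=
          mul_lt_mul'' hs hcon (Nat.cast_nonneg _) (Nat.cast_nonneg _)
        rw [Real.mul_self_sqrt (Nat.cast_nonneg i), hacr] at h3
        exact lt_irrefl _ h3
      refine (mul_le_mul_of_nonneg_left hs2 (Nat.cast_nonneg _)).trans ?_
      exact PP_card_B2 hc1 hQ1 hb hT
  refine (Finset.sum_le_sum h1).trans ?_
  rw [Finset.sum_const, nsmul_eq_mul]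
  exact mul_le_mul_of_nonneg_right (card_div_le hi) (by positivity)

/-! ## Assembly -/

/-- admissible numbers -/
private def Ad (y Q j : ℕ) : Prop := Squarefree j ∧ Rough y j ∧ Nat.Coprime j Q

private theorem ad_dvd {y Q i j : ℕ} (h : Ad y Q j) (hij : i ∣ j) : Ad y Q i :=
  ⟨h.1.squarefree_of_dvd hij, rough_dvd h.2.1 hij, Nat.Coprime.coprime_dvd_left hij h.2.2⟩

private noncomputable def AA (κ : ℝ) (y Q X i : ℕ) : ℝ :=
  ∑ j ∈ Icc 2 X, ic (i ∣ j) * (ic (Ad y Q j) * (κ ^ j.primeFactors.card / (j : ℝ) ^ 2))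

private theorem sg_eq {X j h : ℕ} (hj : j ∈ Icc 2 X) :
    (sg j h : ℝ) = ∑ i ∈ Icc 1 X, ic (i ∣ j) * (ic (i ∣ h) * i) := by
  classical
  rw [Finset.mem_Icc] at hj
  unfold sg
  have h1 : (Nat.gcd j h).divisors = (Icc 1 X).filter (fun i => i ∣ j ∧ i ∣ h) := by
    ext i
    rw [Nat.mem_divisors, Finset.mem_filter, Finset.mem_Icc, Nat.dvd_gcd_iff]
    constructor
    · rintro ⟨h2, -⟩
      refine ⟨⟨?_, (Nat.le_of_dvd (by omega) h2.1).trans hj.2⟩, h2⟩
      rcases Nat.eq_zero_or_pos i with h3 | h3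
      · subst h3
        have := Nat.eq_zero_of_zero_dvd h2.1
        omega
      · exact h3
    · rintro ⟨-, h2⟩
      refine ⟨h2, ?_⟩
      have := Nat.gcd_pos_of_pos_left h (show 0 < j by omega)
      omega
  rw [h1, Finset.sum_filter]
  push_cast
  refine Finset.sum_congr rfl fun i _ => ?_
  rw [← mul_assoc, ← ic_and, ic_eq_ite]
  split_ifs <;> simp

private theorem exchange (κ : ℝ) (y Q b T X : ℕ) :
    ∑ t₁ ∈ Icc 1 T, ∑ t₂ ∈ Icc 1 T, ic (t₁ ≠ t₂) *
        ∑ j ∈ Icc 2 X, ic (Squarefree j ∧ Rough y j ∧ Nat.Coprime j Q) *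
          (κ ^ j.primeFactors.card * sg j (hh (b + Q * t₁) (b + Q * t₂)) / (j : ℝ) ^ 2) =
      ∑ i ∈ Icc 1 X, (i : ℝ) * AA κ y Q X i * NN Q b T i := by
  have h1 : ∀ t₁ t₂ : ℕ, ic (t₁ ≠ t₂) *
        ∑ j ∈ Icc 2 X, ic (Squarefree j ∧ Rough y j ∧ Nat.Coprime j Q) *
          (κ ^ j.primeFactors.card * sg j (hh (b + Q * t₁) (b + Q * t₂)) / (j : ℝ) ^ 2) =
      ∑ i ∈ Icc 1 X, (i : ℝ) * AA κ y Q X i *
        (ic (t₁ ≠ t₂) * ic (i ∣ hh (b + Q * t₁) (b + Q * t₂))) := by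
    intro t₁ t₂
    have h2 : ∀ j ∈ Icc 2 X, ic (Squarefree j ∧ Rough y j ∧ Nat.Coprime j Q) *
          (κ ^ j.primeFactors.card * sg j (hh (b + Q * t₁) (b + Q * t₂)) / (j : ℝ) ^ 2) =
        ∑ i ∈ Icc 1 X, (i : ℝ) * (ic (i ∣ j) * (ic (Ad y Q j) *
          (κ ^ j.primeFactors.card / (j : ℝ) ^ 2))) * ic (i ∣ hh (b + Q * t₁) (b + Q * t₂)) := by
      intro j hj
      rw [sg_eq hj]
      unfold Ad
      rw [Finset.mul_sum, Finset.sum_div, Finset.mul_sum]
      refine Finset.sum_congr rfl fun i _ => ?_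
      ring
    rw [Finset.sum_congr rfl h2, Finset.sum_comm, Finset.mul_sum]
    refine Finset.sum_congr rfl fun i _ => ?_
    unfold AA
    rw [← Finset.sum_mul, ← Finset.mul_sum]
    ring
  simp only [h1]
  have h3 : ∀ t₁ : ℕ, ∑ t₂ ∈ Icc 1 T, ∑ i ∈ Icc 1 X, (i : ℝ) * AA κ y Q X i *
        (ic (t₁ ≠ t₂) * ic (i ∣ hh (b + Q * t₁) (b + Q * t₂))) =
      ∑ i ∈ Icc 1 X, ∑ t₂ ∈ Icc 1 T, (i : ℝ) * AA κ y Q X i *
        (ic (t₁ ≠ t₂) * ic (i ∣ hh (b + Q * t₁) (b + Q * t₂))) := fun t₁ => Finset.sum_comm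
  simp only [h3]
  rw [Finset.sum_comm]
  refine Finset.sum_congr rfl fun i _ => ?_
  unfold NN
  rw [Finset.mul_sum]
  refine Finset.sum_congr rfl fun t₁ _ => ?_
  rw [Finset.mul_sum]

private theorem AA_nonneg {κ : ℝ} (hκ : 1 ≤ κ) (y Q X i : ℕ) : 0 ≤ AA κ y Q X i := by
  refine Finset.sum_nonneg fun j _ => mul_nonneg (ic_nonneg _) (mul_nonneg (ic_nonneg _) ?_)
  have : 0 < κ := by linarith
  positivity

private theorem AA_le {κ D : ℝ} (hκ : 1 ≤ κ)
    (hD : ∀ X : ℕ, ∑ m ∈ Icc 1 X, κ ^ m.primeFactors.card / (m : ℝ) ^ 2 ≤ D) (y Q X i : ℕ)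
    (hi : 1 ≤ i) :
    AA κ y Q X i ≤ ic (Ad y Q i) * (κ ^ i.primeFactors.card / (i : ℝ) ^ 2 * D) := by
  refine le_trans ?_ (mul_le_mul_of_nonneg_left (mult_le hκ hD X i hi) (ic_nonneg _))
  unfold AA
  rw [Finset.mul_sum]
  refine Finset.sum_le_sum fun j _ => ?_
  have h0 : 0 ≤ κ ^ j.primeFactors.card / (j : ℝ) ^ 2 := by
    have : 0 < κ := by linarith
    positivity
  rw [← mul_assoc, ← mul_assoc]
  refine mul_le_mul_of_nonneg_right ?_ h0
  by_cases h1 : i ∣ j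
  · by_cases h2 : Ad y Q j
    · rw [ic_pos h1, ic_pos h2, ic_pos (ad_dvd h2 h1)]
    · rw [ic_neg h2, mul_zero]
      exact mul_nonneg (ic_nonneg _) (ic_nonneg _)
  · rw [ic_neg h1, zero_mul, mul_zero]

private theorem AA_one {κ C Z : ℝ} (hκ : 1 ≤ κ) (hC : 1 ≤ C)
    (h1 : ∀ n : ℕ, 1 ≤ n → κ ^ n.primeFactors.card ≤ C * U n)
    (hZ : ∀ X : ℕ, ∑ n ∈ Icc 1 X, 1 / U n ^ 9 ≤ Z) (y Q X : ℕ) (hy : 1 ≤ y) :
    AA κ y Q X 1 ≤ C * Z * (1 / √(y : ℝ)) := by
  have hκ0 : 0 < κ := by linarith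
  have hU := U_pos hy
  have h2 : ∀ j ∈ Icc 2 X, ic (1 ∣ j) * (ic (Ad y Q j) *
      (κ ^ j.primeFactors.card / (j : ℝ) ^ 2)) ≤ C * (1 / √(y : ℝ)) * (1 / U j ^ 9) := by
    intro j hj
    rw [Finset.mem_Icc] at hj
    have hj1 : 1 ≤ j := by omega
    have hUj := U_pos hj1
    have hUj1 := U_one_le hj1
    rw [ic_pos (one_dvd j), one_mul, ← U_pow4]
    by_cases h3 : Ad y Q j
    · rw [ic_pos h3, one_mul]
      have h4 : y < j := rough_lt h3.2.1 (by omega) (by omega)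
      have h5 : U y ≤ U j := U_mono h4.le
      have h6 := h1 j hj1
      rw [← U_pow8 j, div_le_iff₀ (by positivity)]
      refine h6.trans ?_
      have h7 : C * (1 / U y ^ 4) * (1 / U j ^ 9) * (U j ^ 8) ^ 2 =
          C * (U j ^ 4 / U y ^ 4 * U j ^ 3) := by
        field_simp
      rw [h7]
      refine mul_le_mul_of_nonneg_left ?_ (by linarith)
      have h8 : 1 ≤ U j ^ 4 / U y ^ 4 := by
        rw [one_le_div (by positivity)]
        exact pow_le_pow_left₀ hU.le h5 4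
      have h9 : U j ≤ U j ^ 3 := le_self_pow₀ hUj1 (by norm_num)
      calc U j ≤ U j ^ 3 := h9
        _ = 1 * U j ^ 3 := (one_mul _).symm
        _ ≤ U j ^ 4 / U y ^ 4 * U j ^ 3 := mul_le_mul_of_nonneg_right h8 (by positivity)
    · rw [ic_neg h3, zero_mul]
      positivity
  have h3 : AA κ y Q X 1 ≤ ∑ j ∈ Icc 2 X, C * (1 / √(y : ℝ)) * (1 / U j ^ 9) :=
    Finset.sum_le_sum h2
  refine h3.trans ?_
  rw [← Finset.mul_sum]
  have h4 : ∑ j ∈ Icc 2 X, 1 / U j ^ 9 ≤ Z := by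
    refine le_trans (Finset.sum_le_sum_of_subset_of_nonneg ?_ fun j hj _ => ?_) (hZ X)
    · intro j hj
      rw [Finset.mem_Icc] at hj ⊢
      omega
    · have := U_pos (Finset.mem_Icc.1 hj).1
      positivity
  calc C * (1 / √(y : ℝ)) * ∑ j ∈ Icc 2 X, 1 / U j ^ 9 ≤ C * (1 / √(y : ℝ)) * Z :=
        mul_le_mul_of_nonneg_left h4 (by positivity)
    _ = C * Z * (1 / √(y : ℝ)) := by ring

private theorem term_le {κ C D : ℝ} (hκ : 1 ≤ κ) (hC : 1 ≤ C) (hD1 : 1 ≤ D)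
    (h1 : ∀ n : ℕ, 1 ≤ n → (2 * κ) ^ n.primeFactors.card ≤ C * U n)
    (hD : ∀ X : ℕ, ∑ m ∈ Icc 1 X, κ ^ m.primeFactors.card / (m : ℝ) ^ 2 ≤ D)
    {y Q b T X i : ℕ} (hy : 1 ≤ y) (hQ : 1 ≤ Q) (hb : b ≤ Q) (hT : 1 ≤ T) (hi : 2 ≤ i) :
    (i : ℝ) * AA κ y Q X i * NN Q b T i ≤
      4 * D * C * (T : ℝ) ^ 2 * (1 / √(y : ℝ) + Q * (T : ℝ) ^ (-(1 / 4 : ℝ))) *
        (1 / U i ^ 9) := by
  have hκ0 : 0 < κ := by linarith
  have hi1 : 1 ≤ i := by omega
  have hi0 : (0 : ℝ) < i := by exact_mod_cast hi1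
  have hUi := U_pos hi1
  have hUi1 := U_one_le hi1
  have hUy := U_pos hy
  have hUT := U_pos hT
  have hQ0 : (0 : ℝ) < Q := by exact_mod_cast hQ
  have hTe : (T : ℝ) ^ (-(1 / 4 : ℝ)) = 1 / U T ^ 2 := by
    rw [U_pow2, Real.rpow_neg (Nat.cast_nonneg T)]
    exact (one_div _).symm
  rw [hTe, ← U_pow4]
  by_cases had : Ad y Q i
  · have hyi : y < i := rough_lt had.2.1 (by omega) (by omega)
    have hUyi : U y ≤ U i := U_mono hyi.le
    have hA := AA_le hκ hD y Q X i hi1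
    rw [ic_pos had, one_mul] at hA
    have hω := h1 i hi1
    have hN0 := NN_nonneg Q b T i
    have hstep : (i : ℝ) * AA κ y Q X i * NN Q b T i ≤
        κ ^ i.primeFactors.card * D * (NN Q b T i / i) := by
      calc (i : ℝ) * AA κ y Q X i * NN Q b T i
          ≤ (i : ℝ) * (κ ^ i.primeFactors.card / (i : ℝ) ^ 2 * D) * NN Q b T i :=
            mul_le_mul_of_nonneg_right (mul_le_mul_of_nonneg_left hA hi0.le) hN0
        _ = κ ^ i.primeFactors.card * D * (NN Q b T i / i) := by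
            field_simp
    refine hstep.trans ?_
    by_cases hiT : i ≤ T
    · have hN := NN_A (b := b) had.1 had.2.2 hiT
      have h2 : NN Q b T i / i ≤ 2 ^ i.primeFactors.card * (2 * (T : ℝ) ^ 2) / (i : ℝ) ^ 2 := by
        rw [div_le_div_iff₀ hi0 (by positivity)]
        calc NN Q b T i * (i : ℝ) ^ 2 = NN Q b T i * i * i := by ring
          _ ≤ 2 ^ i.primeFactors.card * (2 * (T : ℝ) ^ 2) * i :=
            mul_le_mul_of_nonneg_right hN hi0.le
      calc κ ^ i.primeFactors.card * D * (NN Q b T i / i)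
          ≤ κ ^ i.primeFactors.card * D *
            (2 ^ i.primeFactors.card * (2 * (T : ℝ) ^ 2) / (i : ℝ) ^ 2) :=
            mul_le_mul_of_nonneg_left h2 (by positivity)
        _ = (2 * κ) ^ i.primeFactors.card * (2 * D * (T : ℝ) ^ 2 / (i : ℝ) ^ 2) := by
            rw [mul_pow]; ring
        _ ≤ C * U i * (2 * D * (T : ℝ) ^ 2 / (i : ℝ) ^ 2) :=
            mul_le_mul_of_nonneg_right hω (by positivity)
        _ = 2 * D * C * (T : ℝ) ^ 2 * (1 / U i ^ 15) := by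
            rw [← U_pow8 i]
            field_simp
        _ ≤ 2 * D * C * (T : ℝ) ^ 2 * (1 / U y ^ 4 * (1 / U i ^ 9)) := by
            refine mul_le_mul_of_nonneg_left ?_ (by positivity)
            rw [one_div_mul_one_div]
            refine one_div_le_one_div_of_le (by positivity) ?_
            calc U y ^ 4 * U i ^ 9 ≤ U i ^ 4 * U i ^ 9 :=
                  mul_le_mul_of_nonneg_right (pow_le_pow_left₀ hUy.le hUyi 4) (by positivity)
              _ = U i ^ 13 := by ring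
              _ ≤ U i ^ 15 := pow_le_pow_right₀ hUi1 (by norm_num)
        _ ≤ 4 * D * C * (T : ℝ) ^ 2 * (1 / U y ^ 4 + Q * (1 / U T ^ 2)) * (1 / U i ^ 9) := by
            have h3 : 0 ≤ D * C * (T : ℝ) ^ 2 * (1 / U i ^ 9) := by positivity
            have h4 : 0 ≤ 1 / U y ^ 4 := by positivity
            have h5 : 0 ≤ Q * (1 / U T ^ 2) := by positivity
            nlinarith [mul_nonneg h3 h4, mul_nonneg h3 h5]
    · push Not at hiT
      have hUTi : U T ≤ U i := U_mono hiT.le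
      have hN := NN_B had.1 had.2.2 hQ hb hT
      rw [← U_pow4] at hN
      have h2 : NN Q b T i / i ≤
          2 ^ i.primeFactors.card * (4 * Q * (T : ℝ) ^ 2) / U i ^ 12 := by
        rw [div_le_div_iff₀ hi0 (by positivity)]
        calc NN Q b T i * U i ^ 12 = NN Q b T i * U i ^ 4 * U i ^ 8 := by ring
          _ ≤ 2 ^ i.primeFactors.card * (4 * Q * (T : ℝ) ^ 2) * U i ^ 8 :=
            mul_le_mul_of_nonneg_right hN (by positivity)
          _ = 2 ^ i.primeFactors.card * (4 * Q * (T : ℝ) ^ 2) * i := by rw [U_pow8]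
      calc κ ^ i.primeFactors.card * D * (NN Q b T i / i)
          ≤ κ ^ i.primeFactors.card * D *
            (2 ^ i.primeFactors.card * (4 * Q * (T : ℝ) ^ 2) / U i ^ 12) :=
            mul_le_mul_of_nonneg_left h2 (by positivity)
        _ = (2 * κ) ^ i.primeFactors.card * (4 * D * Q * (T : ℝ) ^ 2 / U i ^ 12) := by
            rw [mul_pow]; ring
        _ ≤ C * U i * (4 * D * Q * (T : ℝ) ^ 2 / U i ^ 12) :=
            mul_le_mul_of_nonneg_right hω (by positivity)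
        _ = 4 * D * C * (T : ℝ) ^ 2 * (Q * (1 / U i ^ 11)) := by
            field_simp
        _ ≤ 4 * D * C * (T : ℝ) ^ 2 * (Q * (1 / U T ^ 2 * (1 / U i ^ 9))) := by
            refine mul_le_mul_of_nonneg_left (mul_le_mul_of_nonneg_left ?_ hQ0.le) (by positivity)
            rw [one_div_mul_one_div]
            refine one_div_le_one_div_of_le (by positivity) ?_
            calc U T ^ 2 * U i ^ 9 ≤ U i ^ 2 * U i ^ 9 :=
                  mul_le_mul_of_nonneg_right (pow_le_pow_left₀ hUT.le hUTi 2) (by positivity)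
              _ = U i ^ 11 := by ring
        _ ≤ 4 * D * C * (T : ℝ) ^ 2 * (1 / U y ^ 4 + Q * (1 / U T ^ 2)) * (1 / U i ^ 9) := by
            have h3 : 0 ≤ D * C * (T : ℝ) ^ 2 * (1 / U i ^ 9) := by positivity
            have h4 : 0 ≤ 1 / U y ^ 4 := by positivity
            nlinarith [mul_nonneg h3 h4]
  · have hA : AA κ y Q X i = 0 := by
      refine le_antisymm ?_ (AA_nonneg hκ y Q X i)
      have := AA_le hκ hD y Q X i hi1
      rwa [ic_neg had, zero_mul] at this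
    rw [hA, mul_zero, zero_mul]
    positivity

end Pool.Agent.H35.MS.AVM

namespace Pool.Agent.H35.MS

open Finset Real Pool.Agent.H44.MS AVM

theorem pf_AV : T_AV := by
  intro κ hκ
  obtain ⟨C₁, hC₁, h1⟩ := omega_le κ hκ
  obtain ⟨C₂, hC₂, h2⟩ := omega_le (2 * κ) (by linarith)
  obtain ⟨D, hD1, hD⟩ := D_le κ hκ
  obtain ⟨Z, hZ1, hZ⟩ := zeta_le
  refine ⟨C₁ * Z + 4 * D * C₂ * Z, by positivity, ?_⟩
  intro y Q b T X hy hQ hb hT
  rw [exchange]
  set W : ℝ := 1 / √(y : ℝ) + Q * (T : ℝ) ^ (-(1 / 4 : ℝ)) with hW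
  have hW0 : 0 ≤ W := by positivity
  have hyW : 1 / √(y : ℝ) ≤ W := by
    have : 0 ≤ Q * (T : ℝ) ^ (-(1 / 4 : ℝ)) := by positivity
    linarith
  have hsplit : ∑ i ∈ Icc 1 X, (i : ℝ) * AA κ y Q X i * NN Q b T i ≤
      AA κ y Q X 1 * NN Q b T 1 + ∑ i ∈ Icc 2 X, (i : ℝ) * AA κ y Q X i * NN Q b T i := by
    rcases Nat.eq_zero_or_pos X with hX | hX
    · subst hX
      simp only [Finset.Icc_eq_empty_of_lt (show (0 : ℕ) < 1 by norm_num), Finset.sum_empty,
        Finset.Icc_eq_empty_of_lt (show (0 : ℕ) < 2 by norm_num), add_zero]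
      exact mul_nonneg (AA_nonneg hκ _ _ _ _) (NN_nonneg _ _ _ _)
    · rw [← Finset.sum_erase_add (Icc 1 X) _ (Finset.mem_Icc.2 ⟨le_rfl, hX⟩)]
      have h3 : (Icc 1 X).erase 1 = Icc 2 X := by
        ext i
        rw [Finset.mem_erase, Finset.mem_Icc, Finset.mem_Icc]
        omega
      rw [h3, Nat.cast_one, one_mul, add_comm]
  refine hsplit.trans ?_
  have hfirst : AA κ y Q X 1 * NN Q b T 1 ≤ C₁ * Z * W * (T : ℝ) ^ 2 := by
    refine mul_le_mul ((AA_one hκ hC₁ h1 hZ y Q X hy).trans ?_) (NN_le_sq _ _ _ _)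
      (NN_nonneg _ _ _ _) (by positivity)
    exact mul_le_mul_of_nonneg_left hyW (by positivity)
  have hsecond : ∑ i ∈ Icc 2 X, (i : ℝ) * AA κ y Q X i * NN Q b T i ≤
      4 * D * C₂ * (T : ℝ) ^ 2 * W * Z := by
    have h3 : ∑ i ∈ Icc 2 X, (i : ℝ) * AA κ y Q X i * NN Q b T i ≤
        ∑ i ∈ Icc 2 X, 4 * D * C₂ * (T : ℝ) ^ 2 * W * (1 / U i ^ 9) :=
      Finset.sum_le_sum fun i hi => term_le hκ hC₂ hD1 h2 hD hy hQ hb hT (Finset.mem_Icc.1 hi).1
    refine h3.trans ?_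
    rw [← Finset.mul_sum]
    refine mul_le_mul_of_nonneg_left ?_ (by positivity)
    refine le_trans (Finset.sum_le_sum_of_subset_of_nonneg ?_ fun j hj _ => ?_) (hZ X)
    · intro j hj
      rw [Finset.mem_Icc] at hj ⊢
      omega
    · have := U_pos (Finset.mem_Icc.1 hj).1
      positivity
  calc AA κ y Q X 1 * NN Q b T 1 + ∑ i ∈ Icc 2 X, (i : ℝ) * AA κ y Q X i * NN Q b T i
      ≤ C₁ * Z * W * (T : ℝ) ^ 2 + 4 * D * C₂ * (T : ℝ) ^ 2 * W * Z := add_le_add hfirst hsecond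
    _ = (C₁ * Z + 4 * D * C₂ * Z) * (T : ℝ) ^ 2 * W := by ring

end Pool.Agent.H35.MS
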