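import Pool.Agent.H44.MS.Basics

/-!
# The Brun-Hooley sieve: common lemmas for the modules DNc and DNd
-/

set_option autoImplicit false

namespace Pool.Agent.H35.MS

open Finset Real Pool.Agent.H44.MS

theorem mem_PA {A : ℕ → Prop} {z p : ℕ} : p ∈ PA A z ↔ p.Prime ∧ A p ∧ p ≤ z := by
  classical
  unfold PA
  rw [Finset.mem_filter, Finset.mem_Icc]
  constructor
  · rintro ⟨⟨h1, h2⟩, h3, h4⟩
    exact ⟨h3, h4, h2⟩
  · rintro ⟨h3, h4, h2⟩
    exact ⟨⟨h3.one_lt.le, h2⟩, h3, h4⟩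

theorem bi_lt (z p : ℕ) : bi z p < z + 1 := by
  unfold bi
  exact Nat.lt_succ_of_le ((Nat.log_le_self _ _).trans (Nat.log_le_self _ _))

/-- indicator of a conjunction over a range -/
theorem ic_forall (I : ℕ) (p : ℕ → Prop) : ic (∀ i, i < I → p i) = ∏ i ∈ range I, ic (p i) := by
  induction I with
  | zero =>
    rw [Finset.range_zero, Finset.prod_empty]
    exact ic_pos (fun i hi => absurd hi (Nat.not_lt_zero i))
  | succ I ih =>
    rw [Finset.prod_range_succ, ← ih, ← ic_and]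
    refine ic_congr ⟨fun h => ⟨fun i hi => h i (by omega), h I (by omega)⟩, ?_⟩
    rintro ⟨h1, h2⟩ i hi
    rcases Nat.lt_succ_iff_lt_or_eq.1 hi with h | h
    · exact h1 i h
    · rw [h]; exact h2

theorem prod_split (z : ℕ) (T : Finset ℕ) (f : ℕ → ℝ) :
    ∏ p ∈ T, f p = ∏ i ∈ range (z + 1), ∏ p ∈ T.filter (fun p => bi z p = i), f p :=
  (Finset.prod_fiberwise_of_maps_to (fun p _ => Finset.mem_range.2 (bi_lt z p)) _).symm

theorem card_split (z : ℕ) (T : Finset ℕ) :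
    T.card = ∑ i ∈ range (z + 1), (T.filter (fun p => bi z p = i)).card :=
  Finset.card_eq_sum_card_fiberwise (fun p _ => Finset.mem_range.2 (bi_lt z p))

theorem sign_split (z : ℕ) (T : Finset ℕ) :
    (-1 : ℝ) ^ T.card = ∏ i ∈ range (z + 1), (-1 : ℝ) ^ (T.filter (fun p => bi z p = i)).card := by
  rw [Finset.prod_pow_eq_pow_sum, ← card_split]

theorem cast_prod (T : Finset ℕ) : ((∏ p ∈ T, p : ℕ) : ℝ) = ∏ p ∈ T, (p : ℝ) := by
  push_cast
  rfl

/-- the weight of a product of primes -/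
theorem lam_prod (hTR : T_TR) (hLV : T_LV) (A : ℕ → Prop) (s z : ℕ) (hz : 2 ≤ z) {T : Finset ℕ}
    (hT : T ∈ (PA A z).powerset) :
    ic (∏ p ∈ T, p ≤ z ^ (4 * s + 4)) * (ic (Ok s z (∏ p ∈ T, p)) * mu (∏ p ∈ T, p)) =
      ∏ i ∈ range (z + 1), (ic ((T.filter (fun p => bi z p = i)).card ≤ 2 * (s + i)) *
        (-1 : ℝ) ^ (T.filter (fun p => bi z p = i)).card) := by
  obtain ⟨h1, -, h3, h4⟩ := (hTR A z).1 T hT
  rw [Finset.prod_mul_distrib, ← sign_split, ← ic_forall, h4, ← mul_assoc, ← ic_and]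
  congr 1
  refine ic_congr ⟨?_, ?_⟩
  · rintro ⟨-, h⟩ i _
    have := h i
    unfold om at this
    rw [h1] at this
    exact this
  · intro h
    have hok : Ok s z (∏ p ∈ T, p) := by
      intro i
      unfold om
      rw [h1]
      by_cases hi : i < z + 1
      · exact h i hi
      · have h0 : T.filter (fun p => bi z p = i) = ∅ := by
          rw [Finset.filter_eq_empty_iff]
          intro p _ hp
          exact hi (hp ▸ bi_lt z p)
        rw [h0, Finset.card_empty]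
        exact Nat.zero_le _
    exact ⟨(hLV A s z _ hz).1 ⟨h3, hok⟩, hok⟩

/-- sums against the weights -/
theorem sum_lam (hTR : T_TR) (hLV : T_LV) (A : ℕ → Prop) (s z : ℕ) (hz : 2 ≤ z) (F : ℕ → ℝ) :
    ∑ d ∈ Icc 1 (z ^ (4 * s + 4)), lam A s z d * F d =
      ∑ T ∈ (PA A z).powerset,
        (∏ i ∈ range (z + 1), (ic ((T.filter (fun p => bi z p = i)).card ≤ 2 * (s + i)) *
          (-1 : ℝ) ^ (T.filter (fun p => bi z p = i)).card)) * F (∏ p ∈ T, p) := by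
  have h1 := (hTR A z).2.1 (z ^ (4 * s + 4)) (fun d => ic (Ok s z d) * mu d * F d)
  have h2 : ∑ d ∈ Icc 1 (z ^ (4 * s + 4)), lam A s z d * F d =
      ∑ d ∈ Icc 1 (z ^ (4 * s + 4)), ic (An A z d) * (ic (Ok s z d) * mu d * F d) := by
    refine Finset.sum_congr rfl fun d _ => ?_
    unfold lam
    rw [ic_and]
    ring
  rw [h2, h1]
  refine Finset.sum_congr rfl fun T hT => ?_
  rw [← lam_prod hTR hLV A s z hz hT]
  ring

/-- the mass of a block -/
theorem block_mass {H : ℝ} (hH : ∀ z i : ℕ, ∑ p ∈ Icc 1 z, ic (p.Prime ∧ bi z p = i) / p ≤ H)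
    (A : ℕ → Prop) (z i : ℕ) :
    ∑ p ∈ (PA A z).filter (fun p => bi z p = i), 1 / (p : ℝ) ≤ H := by
  refine le_trans ?_ (hH z i)
  have h1 : ∀ p ∈ (PA A z).filter (fun p => bi z p = i), 1 / (p : ℝ) = ic (p.Prime ∧ bi z p = i) / p := by
    intro p hp
    rw [Finset.mem_filter] at hp
    rw [ic_pos ⟨(mem_PA.1 hp.1).1, hp.2⟩]
  rw [Finset.sum_congr rfl h1]
  refine Finset.sum_le_sum_of_subset_of_nonneg ?_ fun p _ _ => div_nonneg (ic_nonneg _) (Nat.cast_nonneg p)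
  intro p hp
  rw [Finset.mem_filter] at hp
  obtain ⟨h2, -, h3⟩ := mem_PA.1 hp.1
  exact Finset.mem_Icc.2 ⟨h2.one_lt.le, h3⟩

theorem block_prime {A : ℕ → Prop} {z i p : ℕ}
    (hp : p ∈ (PA A z).filter (fun p => bi z p = i)) : p.Prime :=
  (mem_PA.1 (Finset.mem_filter.1 hp).1).1

/-- the errors -/
theorem sum_eps (K : ℝ) (hK : 0 ≤ K) : ∃ S : ℕ, ∀ s : ℕ, S ≤ s → ∀ I : ℕ,
    ∑ i ∈ range I, K / 16 ^ (2 * (s + i) + 1) ≤ 1 / 2 := by
  obtain ⟨S, hS⟩ := exists_nat_gt K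
  refine ⟨S, fun s hs I => ?_⟩
  have h1 : K ≤ 2 ^ s := by
    have h2 : (S : ℝ) ≤ s := by exact_mod_cast hs
    have h3 : (s : ℝ) ≤ 2 ^ s := by exact_mod_cast (Nat.lt_two_pow_self (n := s)).le
    linarith
  have h4 : ∀ i ∈ range I, K / 16 ^ (2 * (s + i) + 1) ≤ (1 / 16) * (1 / 2) ^ i := by
    intro i _
    rw [div_le_iff₀ (by positivity)]
    have h5 : (2 : ℝ) ^ s ≤ 16 ^ (2 * s) := by
      rw [pow_mul]
      exact pow_le_pow_left₀ (by norm_num) (by norm_num) s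
    have h6 : (1 / 2 : ℝ) ^ i * 16 ^ (2 * i) ≥ 1 := by
      rw [pow_mul, ← mul_pow]
      exact one_le_pow₀ (by norm_num)
    have h7 : (16 : ℝ) ^ (2 * (s + i) + 1) = 16 ^ (2 * s) * 16 ^ (2 * i) * 16 := by
      rw [pow_succ, mul_add, pow_add]
    rw [h7]
    have h8 : (0 : ℝ) < 16 ^ (2 * s) := by positivity
    calc K ≤ 16 ^ (2 * s) * 1 := by linarith
      _ ≤ 16 ^ (2 * s) * ((1 / 2 : ℝ) ^ i * 16 ^ (2 * i)) := mul_le_mul_of_nonneg_left h6 h8.le
      _ = 1 / 16 * (1 / 2) ^ i * (16 ^ (2 * s) * 16 ^ (2 * i) * 16) := by ring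
  refine (Finset.sum_le_sum h4).trans ?_
  rw [← Finset.mul_sum]
  have h9 : ∑ i ∈ range I, (1 / 2 : ℝ) ^ i ≤ 2 := by
    have := geom_sum_eq (x := (1 / 2 : ℝ)) (by norm_num) I
    rw [this]
    have h10 : (0 : ℝ) ≤ (1 / 2) ^ I := by positivity
    rw [div_le_iff_of_neg (by norm_num)]
    linarith
  linarith

theorem exp_half_le : Real.exp (1 / 2) ≤ 2 := by
  have h3 := Real.exp_one_lt_d9
  have h2 : Real.exp (1 / 2) ^ 2 = Real.exp 1 := by
    rw [← Real.exp_nat_mul]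
    norm_num
  have h0 := Real.exp_pos (1 / 2 : ℝ)
  nlinarith

/-- a factor close to its main term -/
theorem factor_le {G V e ε : ℝ} (h : |G - V| ≤ e) (he : e ≤ ε * V) (hV : 0 ≤ V) :
    |G| ≤ Real.exp ε * V := by
  have h1 : |G| ≤ |G - V| + |V| := by
    calc |G| = |(G - V) + V| := by rw [sub_add_cancel]
      _ ≤ _ := abs_add_le _ _
  rw [abs_of_nonneg hV] at h1
  have h2 : (ε + 1) * V ≤ Real.exp ε * V := mul_le_mul_of_nonneg_right (Real.add_one_le_exp ε) hV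
  linarith

/-- the error relative to the main term of a block -/
theorem err_le {H e V : ℝ} {m : ℕ} (hV : (4 : ℝ) ^ (-H) ≤ V) (he : 0 ≤ e) :
    e / 16 ^ m ≤ (4 : ℝ) ^ H * e / 16 ^ m * V := by
  have h1 : (4 : ℝ) ^ H * (4 : ℝ) ^ (-H) = 1 := by
    rw [← Real.rpow_add (by norm_num), add_neg_cancel, Real.rpow_zero]
  have h2 : 1 ≤ (4 : ℝ) ^ H * V := by
    rw [← h1]
    exact mul_le_mul_of_nonneg_left hV (Real.rpow_nonneg (by norm_num) _)
  have h3 : 0 ≤ e / 16 ^ m := by positivity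
  calc e / 16 ^ m ≤ e / 16 ^ m * ((4 : ℝ) ^ H * V) := le_mul_of_one_le_right h3 h2
    _ = _ := by ring

end Pool.Agent.H35.MS
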