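import Pool.Agent.H35.MS.Com

/-!
# The Brun-Hooley sieve: the mean square of the sieve function (module DNc)
-/

set_option autoImplicit false

namespace Pool.Agent.H35.MS

open Finset Real Pool.Agent.H44.MS

theorem lcm_prod {T₁ T₂ : Finset ℕ} (h₁ : ∀ p ∈ T₁, p.Prime) (h₂ : ∀ p ∈ T₂, p.Prime) :
    Nat.lcm (∏ p ∈ T₁, p) (∏ p ∈ T₂, p) = ∏ p ∈ T₁ ∪ T₂, p := by
  apply Nat.dvd_antisymm
  · exact Nat.lcm_dvd (Finset.prod_dvd_prod_of_subset _ _ _ Finset.subset_union_left)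
      (Finset.prod_dvd_prod_of_subset _ _ _ Finset.subset_union_right)
  · refine Finset.prod_primes_dvd _ ?_ ?_
    · intro p hp
      rcases Finset.mem_union.1 hp with h | h
      · exact (h₁ p h).prime
      · exact (h₂ p h).prime
    · intro p hp
      rcases Finset.mem_union.1 hp with h | h
      · exact (Finset.dvd_prod_of_mem _ h).trans (Nat.dvd_lcm_left _ _)
      · exact (Finset.dvd_prod_of_mem _ h).trans (Nat.dvd_lcm_right _ _)

/-- the product of the main terms of the blocks -/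
theorem prod_V (hTR : T_TR) (A : ℕ → Prop) (z : ℕ) :
    ∏ i ∈ range (z + 1), ∏ p ∈ (PA A z).filter (fun p => bi z p = i), (1 - 1 / (p : ℝ)) = VA A z := by
  rw [(hTR A z).2.2.2]
  exact (prod_split z _ _).symm

theorem pf_DNc (hBP : T_BP) (hTR : T_TR) (hBK : T_BK) (hBL : T_BL) (hLV : T_LV) : T_DNc := by
  obtain ⟨H, hH0, hH⟩ := hBL
  obtain ⟨S, hS⟩ := sum_eps ((4 : ℝ) ^ H * Real.exp (64 * H))
    (mul_nonneg (Real.rpow_nonneg (by norm_num) _) (Real.exp_pos _).le)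
  refine ⟨S, fun s hs A z hz => ?_⟩
  set B : ℕ → Finset ℕ := fun i => (PA A z).filter (fun p => bi z p = i) with hB
  set V : ℕ → ℝ := fun i => ∏ p ∈ B i, (1 - 1 / (p : ℝ)) with hV
  set F : ℕ → Finset ℕ → Finset ℕ → ℝ := fun i U₁ U₂ =>
    ic (U₁.card ≤ 2 * (s + i) ∧ U₂.card ≤ 2 * (s + i)) * (-1) ^ (U₁.card + U₂.card) /
      ∏ p ∈ U₁ ∪ U₂, (p : ℝ) with hF
  have hprime : ∀ T ∈ (PA A z).powerset, ∀ p ∈ T, p.Prime := fun T hT p hp =>
    (mem_PA.1 (Finset.mem_powerset.1 hT hp)).1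
  have h1 : ∑ d₁ ∈ Icc 1 (z ^ (4 * s + 4)), ∑ d₂ ∈ Icc 1 (z ^ (4 * s + 4)),
      lam A s z d₁ * lam A s z d₂ / (Nat.lcm d₁ d₂ : ℝ) =
      ∏ i ∈ range (z + 1), ∑ U₁ ∈ (B i).powerset, ∑ U₂ ∈ (B i).powerset, F i U₁ U₂ := by
    rw [← (hBP (PA A z) (bi z) (z + 1) (fun p _ => bi_lt z p)).2 F]
    have e1 : ∀ d₁ ∈ Icc 1 (z ^ (4 * s + 4)), ∑ d₂ ∈ Icc 1 (z ^ (4 * s + 4)),
        lam A s z d₁ * lam A s z d₂ / (Nat.lcm d₁ d₂ : ℝ) =
        lam A s z d₁ * ∑ d₂ ∈ Icc 1 (z ^ (4 * s + 4)), lam A s z d₂ * (1 / (Nat.lcm d₁ d₂ : ℝ)) := by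
      intro d₁ _
      rw [Finset.mul_sum]
      refine Finset.sum_congr rfl fun d₂ _ => ?_
      ring
    rw [Finset.sum_congr rfl e1, sum_lam hTR hLV A s z hz]
    refine Finset.sum_congr rfl fun T₁ hT₁ => ?_
    rw [sum_lam hTR hLV A s z hz, Finset.mul_sum]
    refine Finset.sum_congr rfl fun T₂ hT₂ => ?_
    rw [lcm_prod (hprime T₁ hT₁) (hprime T₂ hT₂), cast_prod, prod_split z (T₁ ∪ T₂), one_div,
      ← Finset.prod_inv_distrib, ← Finset.prod_mul_distrib, ← Finset.prod_mul_distrib]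
    refine Finset.prod_congr rfl fun i _ => ?_
    rw [hF]
    simp only
    rw [ic_and, Finset.filter_union, pow_add]
    ring
  rw [h1, Finset.abs_prod]
  have h2 : ∀ i ∈ range (z + 1), |∑ U₁ ∈ (B i).powerset, ∑ U₂ ∈ (B i).powerset, F i U₁ U₂| ≤
      Real.exp ((4 : ℝ) ^ H * Real.exp (64 * H) / 16 ^ (2 * (s + i) + 1)) * V i := by
    intro i _
    obtain ⟨-, k2, k3, -, -⟩ := hBK (B i) H 1 (2 * (s + i)) (fun p hp => block_prime hp) le_rfl
      (block_mass hH A z i)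
    refine factor_le k2 (err_le k3 (Real.exp_pos _).le) ?_
    exact (Real.rpow_nonneg (by norm_num) _).trans k3
  refine (Finset.prod_le_prod (fun i _ => abs_nonneg _) h2).trans ?_
  rw [Finset.prod_mul_distrib, ← Real.exp_sum]
  have h3 : ∏ i ∈ range (z + 1), V i = VA A z := prod_V hTR A z
  rw [h3]
  have h4 : 0 ≤ VA A z := by
    rw [← h3]
    refine Finset.prod_nonneg fun i _ => Finset.prod_nonneg fun p hp => ?_
    have h5 : (1 : ℝ) ≤ p := by exact_mod_cast (block_prime hp).one_lt.le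
    rw [sub_nonneg, div_le_one (by linarith)]
    exact h5
  refine mul_le_mul_of_nonneg_right ?_ h4
  exact (Real.exp_le_exp.2 (hS s hs (z + 1))).trans exp_half_le

end Pool.Agent.H35.MS
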