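import Pool.Agent.H35.MS.DNc

/-!
# The Brun-Hooley sieve: the mean value of the sieve function over multiples (module DNd)
-/

set_option autoImplicit false

namespace Pool.Agent.H35.MS

open Finset Real Pool.Agent.H44.MS

theorem dvd_prod_iff (hTR : T_TR) {A : ℕ → Prop} {z j : ℕ} (hj : An A z j) {T : Finset ℕ}
    (hT : T ∈ (PA A z).powerset) : j ∣ ∏ p ∈ T, p ↔
      ∀ i, i < z + 1 → j.primeFactors.filter (fun p => bi z p = i) ⊆ T.filter (fun p => bi z p = i) := by
  obtain ⟨h1, h2, -, -⟩ := (hTR A z).1 T hT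
  constructor
  · intro h i _
    refine Finset.filter_subset_filter _ ?_
    rw [← h1]
    exact Nat.primeFactors_mono h (by omega)
  · intro h
    rw [← Nat.prod_primeFactors_of_squarefree hj.1]
    refine Finset.prod_dvd_prod_of_subset _ _ _ ?_
    intro p hp
    exact (Finset.mem_filter.1 (h (bi z p) (bi_lt z p) (Finset.mem_filter.2 ⟨hp, rfl⟩))).1

theorem pf_DNd (hBP : T_BP) (hTR : T_TR) (hBK : T_BK) (hBL : T_BL) (hLV : T_LV) : T_DNd := by
  obtain ⟨H, hH0, hH⟩ := hBL
  obtain ⟨S, hS⟩ := sum_eps ((4 : ℝ) ^ H * Real.exp (16 * (1 + 1) * H))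
    (mul_nonneg (Real.rpow_nonneg (by norm_num) _) (Real.exp_pos _).le)
  set C₀ : ℝ := Real.exp H * (4 : ℝ) ^ H with hC₀
  have hC1 : 1 ≤ C₀ := by
    have h1 : 1 ≤ Real.exp H := Real.one_le_exp hH0.le
    have h2 : 1 ≤ (4 : ℝ) ^ H := Real.one_le_rpow (by norm_num) hH0.le
    nlinarith
  refine ⟨max 2 C₀, le_trans (by norm_num) (le_max_left _ _), S, fun s hs A z hz j hj => ?_⟩
  by_cases hAn : An A z j
  swap
  · have h0 : ∀ d ∈ Icc 1 (z ^ (4 * s + 4)), ic (j ∣ d) * lam A s z d / d = 0 := by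
      intro d _
      by_cases hd : j ∣ d
      · have h1 : lam A s z d = 0 := by
          unfold lam
          rw [ic_neg (fun h => hAn (an_dvd h.1 hd)), zero_mul]
        rw [h1, mul_zero, zero_div]
      · rw [ic_neg hd, zero_mul, zero_div]
    rw [Finset.sum_eq_zero h0, ic_neg hAn, abs_zero, zero_mul, zero_mul, zero_div]
  rw [ic_pos hAn, one_mul]
  set J : Finset ℕ := j.primeFactors with hJ
  have hJP : J ⊆ PA A z := by
    intro p hp
    have h1 := Nat.prime_of_mem_primeFactors hp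
    have h2 := hAn.2 p h1 (Nat.dvd_of_mem_primeFactors hp)
    exact mem_PA.2 ⟨h1, h2.1, h2.2⟩
  have hjJ : (j : ℝ) = ∏ p ∈ J, (p : ℝ) := by
    rw [← cast_prod, hJ, Nat.prod_primeFactors_of_squarefree hAn.1]
  set B : ℕ → Finset ℕ := fun i => (PA A z).filter (fun p => bi z p = i) with hB
  set V : ℕ → ℝ := fun i => ∏ p ∈ B i, (1 - 1 / (p : ℝ)) with hV
  set Ji : ℕ → Finset ℕ := fun i => J.filter (fun p => bi z p = i) with hJi
  set F : ℕ → Finset ℕ → ℝ := fun i U =>
    ic (Ji i ⊆ U ∧ U.card ≤ 2 * (s + i)) * (-1) ^ U.card / ∏ p ∈ U, (p : ℝ) with hF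
  have h1 : ∑ d ∈ Icc 1 (z ^ (4 * s + 4)), ic (j ∣ d) * lam A s z d / d =
      ∏ i ∈ range (z + 1), ∑ U ∈ (B i).powerset, F i U := by
    rw [← (hBP (PA A z) (bi z) (z + 1) (fun p _ => bi_lt z p)).1 F]
    have e1 : ∀ d ∈ Icc 1 (z ^ (4 * s + 4)), ic (j ∣ d) * lam A s z d / d =
        lam A s z d * (ic (j ∣ d) * (1 / (d : ℝ))) := by
      intro d _
      ring
    rw [Finset.sum_congr rfl e1, sum_lam hTR hLV A s z hz (fun d => ic (j ∣ d) * (1 / (d : ℝ)))]
    refine Finset.sum_congr rfl fun T hT => ?_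
    rw [ic_congr (dvd_prod_iff hTR hAn hT), ic_forall, cast_prod, prod_split z T, one_div,
      ← Finset.prod_inv_distrib, ← Finset.prod_mul_distrib, ← Finset.prod_mul_distrib]
    refine Finset.prod_congr rfl fun i _ => ?_
    rw [hF]
    simp only
    rw [ic_and]
    ring
  rw [h1, Finset.abs_prod]
  have h2 : ∀ i ∈ range (z + 1), |∑ U ∈ (B i).powerset, F i U| ≤
      Real.exp ((4 : ℝ) ^ H * Real.exp (16 * (1 + 1) * H) / 16 ^ (2 * (s + i) + 1)) * V i *
        (C₀ ^ (Ji i).card / ∏ p ∈ Ji i, (p : ℝ)) := by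
    intro i _
    obtain ⟨k1, -, k3, -, k5⟩ := hBK (B i) H 1 (2 * (s + i)) (fun p hp => block_prime hp) le_rfl
      (block_mass hH A z i)
    have hV0 : 0 ≤ V i := (Real.rpow_nonneg (by norm_num) _).trans k3
    rcases (Ji i).eq_empty_or_nonempty with h0 | h0
    · have e1 : ∑ U ∈ (B i).powerset, F i U = ∑ U ∈ (B i).powerset,
          (ic (U.card ≤ 2 * (s + i)) * (-1) ^ U.card) / ∏ p ∈ U, (p : ℝ) := by
        refine Finset.sum_congr rfl fun U _ => ?_
        rw [hF]
        simp only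
        rw [h0, ic_congr (show (∅ ⊆ U ∧ U.card ≤ 2 * (s + i)) ↔ U.card ≤ 2 * (s + i) from
          ⟨fun h => h.2, fun h => ⟨Finset.empty_subset _, h⟩⟩)]
      rw [e1, h0, Finset.card_empty, pow_zero, Finset.prod_empty, div_one, mul_one]
      refine factor_le (k1 _ ?_ ?_) (err_le k3 (Real.exp_pos _).le) hV0
      · intro U _ hU
        rw [ic_pos hU, one_mul]
      · intro U _
        rw [abs_mul, abs_ic, abs_pow, abs_neg, abs_one, one_pow, mul_one]
        exact ic_le_one _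
    · have hsub : Ji i ∈ (B i).powerset :=
        Finset.mem_powerset.2 (Finset.filter_subset_filter _ hJP)
      refine (k5 (Ji i) hsub).trans ?_
      have hp0 : 0 < ∏ p ∈ Ji i, (p : ℝ) := by
        refine Finset.prod_pos fun p hp => ?_
        exact_mod_cast (block_prime (Finset.mem_powerset.1 hsub hp)).pos
      rw [← mul_div_assoc]
      refine div_le_div_of_nonneg_right ?_ hp0.le
      have e1 : C₀ ≤ C₀ ^ (Ji i).card := le_self_pow₀ hC1 (Finset.card_pos.2 h0).ne'
      have e2 : Real.exp H = (4 : ℝ) ^ (-H) * C₀ := by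
        rw [hC₀, mul_comm (Real.exp H), ← mul_assoc, ← Real.rpow_add (by norm_num), neg_add_cancel,
          Real.rpow_zero, one_mul]
      have e3 : (1 : ℝ) ≤ Real.exp ((4 : ℝ) ^ H * Real.exp (16 * (1 + 1) * H) / 16 ^ (2 * (s + i) + 1)) :=
        Real.one_le_exp (by positivity)
      calc Real.exp H = (4 : ℝ) ^ (-H) * C₀ := e2
        _ ≤ V i * C₀ ^ (Ji i).card := mul_le_mul k3 e1 (by linarith) hV0
        _ ≤ _ := by
          refine mul_le_mul_of_nonneg_right ?_ (by positivity)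
          exact le_mul_of_one_le_left hV0 e3
  refine (Finset.prod_le_prod (fun i _ => abs_nonneg _) h2).trans ?_
  rw [Finset.prod_mul_distrib, Finset.prod_mul_distrib, ← Real.exp_sum, Finset.prod_div_distrib]
  have h3 : ∏ i ∈ range (z + 1), V i = VA A z := prod_V hTR A z
  have h3' : ∏ i ∈ range (z + 1), ∏ p ∈ Ji i, (p : ℝ) = j := by
    rw [hjJ]
    exact (prod_split z J _).symm
  have h3'' : ∏ i ∈ range (z + 1), C₀ ^ (Ji i).card = C₀ ^ J.card := by
    rw [Finset.prod_pow_eq_pow_sum]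
    congr 1
    exact (card_split z J).symm
  rw [h3, h3', h3'']
  have h4 : 0 ≤ VA A z := by
    rw [← h3]
    refine Finset.prod_nonneg fun i _ => Finset.prod_nonneg fun p hp => ?_
    have h5 : (1 : ℝ) ≤ p := by exact_mod_cast (block_prime hp).one_lt.le
    rw [sub_nonneg, div_le_one (by linarith)]
    exact h5
  have h6 : Real.exp (∑ i ∈ range (z + 1), (4 : ℝ) ^ H * Real.exp (16 * (1 + 1) * H) /
      16 ^ (2 * (s + i) + 1)) ≤ 2 := (Real.exp_le_exp.2 (hS s hs (z + 1))).trans exp_half_le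
  have h7 : C₀ ^ J.card ≤ (max 2 C₀) ^ J.card :=
    pow_le_pow_left₀ (by linarith) (le_max_right _ _) _
  have hj0 : (0 : ℝ) < j := by exact_mod_cast hj
  rw [← mul_div_assoc]
  refine div_le_div_of_nonneg_right ?_ hj0.le
  calc Real.exp (∑ i ∈ range (z + 1), (4 : ℝ) ^ H * Real.exp (16 * (1 + 1) * H) /
        16 ^ (2 * (s + i) + 1)) * VA A z * C₀ ^ J.card
      ≤ (max 2 C₀) * VA A z * (max 2 C₀) ^ J.card := by
        refine mul_le_mul (mul_le_mul_of_nonneg_right (h6.trans (le_max_left _ _)) h4) h7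
          (by positivity) ?_
        exact mul_nonneg (by positivity) h4
    _ = (max 2 C₀) ^ (J.card + 1) * VA A z := by rw [pow_succ]; ring

end Pool.Agent.H35.MS
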